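import Pool.Agent.Helper15_HIK.Tay
import Pool.Agent.Helper72_HIK.Dvd
import Pool.Agent.Helper72_HIK.Dzr
import Pool.Agent.Helper13_HIK.HSE
import Pool.Agent.Helper76_HIK.INT
import Pool.Agent.Helper10_HIK.Cls
import Pool.Agent.Helper52_HIK.RTB
import Pool.Agent.Helper90_HIK.PRM
import Pool.Agent.Helper9_HIK.RTS
import Pool.Agent.Helper44_HIK.SNG
import Pool.Agent.Helper44_HIK.AVG
import Pool.Agent.Helper31_HIK.CNT
import Pool.Agent.Helper67_HIK.BOX
import Pool.Agent.Helper94_HIK.DZC
import Pool.Agent.Helper55_HIK.AVW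
import Pool.Agent.Helper55_HIK.RES
import Pool.Agent.Helper65_HIK.Hid
import Pool.Agent.Helper25_HIK.ALG
import Pool.Agent.Helper80_HIK.FRK
import Pool.Agent.Helper84_HIK.EXO
import Pool.Agent.Helper45_HIK.DEK
import Pool.Agent.Helper79_HIK.CST
import Pool.Agent.Helper81_HIK.GPF
import Pool.Agent.Helper81_HIK.FIN
import Pool.Agent.Helper59_HIK.MON
import Pool.Agent.Helper33_MTL.Fra
import Pool.Agent.Helper35_HIK.Srb
import Pool.Agent.Helper35_HIK.Avs
import Pool.Agent.Helper35_HIK.Hic
import Pool.Agent.Helper35_HIK.Sml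
import Pool.Agent.Helper27_HIK.Bxl
import Pool.Agent.Helper87_HIK.SER

/-! HIK: assembly. -/

set_option autoImplicit false

namespace Pool.Agent.HIK

universe u

theorem prmA : PrmStmt := H90.prm
theorem clsA : ClsStmt := H10.cls H15.tay H72.dvd H13.hse H76.int
theorem rtsA : RtsStmt := H9.rts prmA
theorem sngA : SngStmt := H44.sng prmA
theorem cntA : CntStmt := H31.cnt clsA H52.rtb rtsA sngA
theorem boxA : BoxStmt := H67.box
theorem dzcA : DzcStmt := H94.dzc boxA
theorem avgA : AvgStmt := H44.avg boxA dzcA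
theorem avwA : AvwStmt := H55.avw boxA dzcA
theorem avsA : AvsStmt := H35.avs boxA dzcA
theorem hidA : HidStmt := H65.hid cntA avgA
theorem gpfA : GpfStmt := H81.gpf
theorem exoA : ExoStmt := H84.exo Pool.Agent.Helper25_HIK.alg H80.frk gpfA
theorem dekA : DekStmt := H45.dek
theorem cstA : CstStmt := H79.cst
theorem resA : ResStmt := H55R.res dekA
theorem hicA : HicStmt := H35.hic exoA hidA dzcA cstA resA
theorem higA : HigStmt := H35.hig_of_hic hicA
theorem monA : MonStmt.{u} := H59.mon
theorem gksA : GksStmt := H35.gks hicA dekA gpfA Pool.Agent.MTL.H33.fra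
theorem gkmA : GkmStmt.{u} := H35.gkm gksA monA
theorem serA : SerStmt := H87.ser higA dekA gpfA
theorem finA : FinStmt.{u} := H81.fin serA monA
theorem bxlA : BxlStmt := H27.bxl
theorem dzrA : DzrStmt := H72.dzr boxA bxlA
theorem smlA : SmlStmt := H35.sml avgA
theorem srbA : SrbStmt := H35.srb higA gpfA Pool.Agent.MTL.H33.fra

end Pool.Agent.HIK
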