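import Pool.Agent.MTL.Stmts

/-! HIK: Hilbert's irreducibility theorem for one hundred percent of the elements of the ring of
integers of a number field, ordered by the house; specialisation at algebraic points. -/

set_option autoImplicit false

namespace Pool.Agent.HIK

open Polynomial NumberField Pool.Agent.MTL

/-- the algebraic closure of the rationals -/
abbrev QB : Type := AlgebraicClosure ℚ

/-- the stabiliser of `a`: the Galois group of `ℚ(a)` -/
noncomputable abbrev Stab (a : QB) : Subgroup GQ := MulAction.stabilizer GQ a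

/-- The representation `ρa` of the Galois group of `ℚ(a)` is the specialisation at `t = a` of the
representation `ρ` of the Galois group of `ℚ(t)`: there is a homomorphism `π` with `π t = a` from the
ring of the elements integral over `ℚ[t]` to the algebraic closure of `ℚ` such that `ρa τ = ρ σ` whenever
`π ∘ σ = τ ∘ π`. -/
def SpecializesAt {G : Type*} [Group G] (ρ : GT →* G) (a : QB) (ρa : Stab a →* G) : Prop :=
  ∃ π : BB →+* QB, π (algebraMap ℚ[X] BB X) = a ∧
    ∀ (σ : GT) (τ : Stab a), (∀ b : BB, π (σ • b) = (τ : GQ) (π b)) → ρa τ = ρ σ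

/-- A set of algebraic integers of `K` has density zero, in the order of the house: it has
`o(X ^ [K : ℚ])` elements all of whose conjugates have absolute value at most `X`. -/
def DZ (K : Type) [Field K] [NumberField K] (S : Set (𝓞 K)) : Prop :=
  Filter.Tendsto (fun X : ℕ => (Nat.card {a : 𝓞 K // a ∈ S ∧ house (a : K) ≤ X} : ℝ) /
    (X : ℝ) ^ Module.finrank ℚ K) Filter.atTop (nhds 0)

/-- The interpolation matrix. -/
def interpMatK {R : Type*} [CommRing R] (N : ℕ) (a y : Fin (N + 1) → R) :
    Matrix (Fin (N + 1)) (Fin (N + 1)) R :=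
  Matrix.of fun i k => if (k : ℕ) < N then a i ^ (k : ℕ) else y i

/-- coefficients in the field -/
noncomputable abbrev toK (K : Type) [Field K] [NumberField K] (g : (𝓞 K)[X][X]) : K[X][X] :=
  g.map (mapRingHom (algebraMap (𝓞 K) K))

/-- A monic polynomial without a root in `K[X]` and with a nonzero discriminant. -/
structure AdmK (K : Type) [Field K] [NumberField K] (g : (𝓞 K)[X][X]) : Prop where
  monic : g.Monic
  no_root : ∀ P : K[X], (toK K g).eval P ≠ 0
  sep : ∃ (A B : (𝓞 K)[X][X]) (r : (𝓞 K)[X]), r ≠ 0 ∧ A * g + B * derivative g = C r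

/-- A bound for the degree of `g(X, P(X))`, `P` of degree at most `N`. -/
noncomputable def degBoundK {K : Type} [Field K] [NumberField K] (g : (𝓞 K)[X][X]) (N : ℕ) : ℕ :=
  (∑ k ∈ Finset.range (g.natDegree + 1), (g.coeff k).natDegree) + g.natDegree * N

/-- `u` is invertible modulo `p` -/
def UnitMod {R : Type*} [CommRing R] (p u : R) : Prop := ∃ v : R, p ∣ 1 - v * u

/-- the Galois group of `φ(K)(t)` -/
def Gph {K : Type} [Field K] (φ : K →+* Om) : Subgroup GT where
  carrier := {σ | ∀ c : K, σ (φ c) = φ c}
  one_mem' := fun _ => rfl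
  mul_mem' := by
    intro a b ha hb c
    rw [AlgEquiv.mul_apply, hb c, ha c]
  inv_mem' := by
    intro a ha c
    have h := ha c
    calc a⁻¹ (φ c) = a⁻¹ (a (φ c)) := by rw [h]
      _ = φ c := a.symm_apply_apply (φ c)

/-- the variable as an element of the algebraic closure of `ℚ(t)` -/
noncomputable def tt : Om := algebraMap ℚ[X] Om X

/-- the polynomials over the ring of integers as elements of the algebraic closure of `ℚ(t)` -/
noncomputable def zph {K : Type} [Field K] [NumberField K] (φ : K →+* Om) : (𝓞 K)[X] →+* Om :=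
  eval₂RingHom (φ.comp (algebraMap (𝓞 K) K)) tt

end Pool.Agent.HIK
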