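import Pool.Agent.HIK.Defs
import Pool.Agent.Helper34_MTL.Ser

/-! HIK: the statements of the modules, with proofs in the comments. -/

set_option autoImplicit false

namespace Pool.Agent.HIK

open Polynomial NumberField Matrix Pool.Agent.MTL Pool.Agent.MTL.H34 Pool.Agent.Helper78_MT

universe u

/-! ### The determinant method over a number field -/

/-- TAY: the Taylor coefficients of a simple root modulo `p`, over any commutative ring.
Proof as in `Common_HIT.Taylor` (`exists_taylor`, `exists_taylor_coeffs`), with the inverse `v` of the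
derivative given; congruences by going to the quotient by `Ideal.span {p}`; uniqueness: if
`p ^ N ∣ (y - z) * u'` and `p ∣ 1 - v * u'` then `p ^ N ∣ (1 - v * u') ^ N` and
`(1 - v * u') ^ N = 1 - u' * w`, so `p ^ N ∣ y - z`. -/
def TayStmt : Prop :=
  ∀ (R : Type) [CommRing R] (g : R[X][X]) (p t0 y0 v : R), p ∣ evalEval t0 y0 g →
    p ∣ 1 - v * evalEval t0 y0 (derivative g) → ∀ N : ℕ, 1 ≤ N →
    ∃ c : ℕ → R, ∀ b y : R, p ∣ y - y0 → evalEval (t0 + p * b) y g = 0 →
      p ^ N ∣ y - ∑ k ∈ Finset.range N, c k * (p * b) ^ k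

/-- DVD: divisibility of the interpolation determinant. Proof as `Common_HIT.dvd_det_interpMat`. -/
def DvdStmt : Prop :=
  ∀ (R : Type) [CommRing R] (N : ℕ) (p : R) (b y : Fin (N + 1) → R) (c : ℕ → R),
    (∀ i, p ^ N ∣ y i - ∑ k ∈ Finset.range N, c k * (p * b i) ^ k) →
    p ^ (N * (N + 1) / 2) ∣ (interpMatK N (fun i => p * b i) y).det

/-- HSE: the size of the interpolation determinant. Proof as `Common_HIT.abs_det_interpMat_le`, with
`house_sum_le_sum_house`, `house_mul_le`, `house_prod_le`, `house_pow_le`, `house_nonneg` (or apply an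
embedding: the house is the maximum of the norms). -/
def HseStmt : Prop :=
  ∀ (K : Type) [Field K] [NumberField K] (N : ℕ) (a y : Fin (N + 1) → K) (T Y : ℝ),
    (∀ i, house (a i) ≤ T) → (∀ i, house (y i) ≤ Y) →
    house ((interpMatK N a y).det) ≤ (N + 1).factorial * (T ^ (N * (N - 1) / 2) * Y)

/-- INT: if the determinant vanishes, the last point is on the interpolating polynomial of the
others. Proof as `Common_HIT.eval_eq_of_det_eq_zero`. -/
def IntStmt : Prop :=
  ∀ (F : Type) [Field F] (N : ℕ) (s : F) (a y : Fin (N + 1) → F), Function.Injective a →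
    (interpMatK N (fun i => a i - s) y).det = 0 → ∀ P : F[X], P.degree < N →
    (∀ i : Fin N, P.eval (a i.castSucc) = y i.castSucc) →
    P.eval (a (Fin.last N)) = y (Fin.last N)

/-- CLS: few integral points in one residue class. Proof as `Common_HIT.class_bound`: the points are
`a0 + n`, `n ∈ S`, and `n - n0 = p b` with `b` an integer of absolute value `≤ T`; the determinant of
`interpMatK N (n - n0) (y n)` is divisible by `p ^ e`, `e = N (N + 1) / 2` (TAY, DVD with
`t0 = a0 + n0`), its house is smaller than `p ^ e` (HSE), and a nonzero algebraic integer has house at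
least one (`one_le_house_of_isIntegral`, `house_nat_mul`), so it vanishes. By INT all points are on one
polynomial `P` of degree `< N` over `K`, and `g(X, P(X)) ≠ 0` has degree at most `degBoundK g N`. -/
def ClsStmt : Prop :=
  ∀ (K : Type) [Field K] [NumberField K] (g : (𝓞 K)[X][X]), (∀ P : K[X], (toK K g).eval P ≠ 0) →
    ∀ (p : ℕ), p.Prime → ∀ (a0 y0 : 𝓞 K) (n0 N T Y : ℕ), 1 ≤ N → n0 ≤ T →
    (p : 𝓞 K) ∣ evalEval (a0 + n0) y0 g →
    UnitMod (p : 𝓞 K) (evalEval (a0 + n0) y0 (derivative g)) →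
    (N + 1).factorial * (T ^ (N * (N - 1) / 2) * Y) < p ^ (N * (N + 1) / 2) →
    ∀ (S : Finset ℕ) (y : ℕ → 𝓞 K), (∀ n ∈ S, n ≤ T) → (∀ n ∈ S, (p : ℤ) ∣ (n : ℤ) - n0) →
      (∀ n ∈ S, (p : 𝓞 K) ∣ y n - y0) → (∀ n ∈ S, evalEval (a0 + n) (y n) g = 0) →
      (∀ n ∈ S, house (y n : K) ≤ Y) → S.card ≤ degBoundK g N + N

/-- RTB: the size of a root. Proof as `Common_HIT.exists_root_bound`: apply an embedding `σ`, the house
is the maximum of the norms of the conjugates; `‖σ y‖ ≤ 1 + ∑ ‖σ (coefficients of g (a, ·))‖`. -/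
def RtbStmt : Prop :=
  ∀ (K : Type) [Field K] [NumberField K] (g : (𝓞 K)[X][X]), g.Monic →
    ∃ C κ : ℕ, ∀ T : ℕ, 1 ≤ T → ∀ a y : 𝓞 K, house (a : K) ≤ T → evalEval a y g = 0 →
      house (y : K) ≤ C * (T : ℝ) ^ κ

/-- the maximal ideals of the ring of integers containing `p` -/
def Ab (K : Type) [Field K] [NumberField K] (p : ℕ) : Set (Ideal (𝓞 K)) :=
  {P | P.IsMaximal ∧ (p : 𝓞 K) ∈ P}

/-- PRM: there are at most `[K : ℚ]` primes above `p`, and an element outside of all of them is
invertible modulo `p` (otherwise it generates with `p` a proper ideal). Bound: by the Chinese remainder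
theorem `𝓞 / p` of cardinality `p ^ [K : ℚ]` maps onto the product of the residue fields (or
`Ideal.sum_ramification_inertia`). -/
def PrmStmt : Prop :=
  ∀ (K : Type) [Field K] [NumberField K] (p : ℕ), p.Prime →
    (Ab K p).Finite ∧ (Ab K p).ncard ≤ Module.finrank ℚ K ∧
      ∀ u : 𝓞 K, (∀ P ∈ Ab K p, u ∉ P) → UnitMod (p : 𝓞 K) u

/-- RTS: the number of the simple roots modulo `p` of a monic polynomial. Proof: two simple roots `y`,
`y'` which agree modulo all maximal ideals above `p` agree modulo `p`: `h y' = h y + h'(y) (y' - y) +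
k (y' - y) ^ 2`, so `p ∣ (y' - y) (h'(y) + k (y' - y))` and `h'(y) + k (y' - y)` is in no maximal ideal above
`p`, so invertible modulo `p` (PRM). So the roots inject into the product over `P ∈ Ab K p` of the
roots of `h` in the field `𝓞 / P`: at most `(deg h) ^ card (Ab K p)`; if `deg h = 0` then `h = 1` and
there is no root. -/
def RtsStmt : Prop :=
  ∀ (K : Type) [Field K] [NumberField K] (p : ℕ), p.Prime → ∀ h : (𝓞 K)[X], h.Monic →
    ∀ S : Finset (𝓞 K), (∀ y ∈ S, (p : 𝓞 K) ∣ h.eval y) →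
      (∀ y ∈ S, UnitMod (p : 𝓞 K) ((derivative h).eval y)) →
      (∀ y ∈ S, ∀ y' ∈ S, (p : 𝓞 K) ∣ y - y' → y = y') →
      S.card ≤ h.natDegree ^ Module.finrank ℚ K

/-- SNG: the singular residues. Proof: if `r (a0 + n)` is not invertible modulo `p` it is in some
`P ∈ Ab K p` (PRM); for `p` larger than the norm of the leading coefficient of `r` the polynomial
`r (a0 + X)` is not zero modulo `P`, so it has at most `deg r` roots in `𝓞 / P`, and different `n < p` are
different in `𝓞 / P` (the characteristic is `p`). -/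
def SngStmt : Prop :=
  ∀ (K : Type) [Field K] [NumberField K] (r : (𝓞 K)[X]), r ≠ 0 → ∃ p0 : ℕ, ∀ p : ℕ, p.Prime →
    p0 ≤ p → ∀ (a0 : 𝓞 K) (S : Finset ℕ), (∀ n ∈ S, n < p) →
      (∀ n ∈ S, ¬ UnitMod (p : 𝓞 K) (r.eval (a0 + n))) →
      S.card ≤ Module.finrank ℚ K * r.natDegree

/-- CNT: the number of the bad parameters in a segment in the direction of one. Proof as
`Common_HIT.count_bad` (RTB gives `C`, `κ`; take `N = κ + 2`, `e = N (N + 1) / 2`, a prime `p` with
`R ^ (e - 1) < p ≤ 2 R ^ (e - 1)`, `T = R ^ e`, `Y = C (3 T) ^ κ`; the bad `n` with `r (a0 + n)` not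
invertible modulo `p`: at most `[K : ℚ] deg r` residues with at most `R` elements each (SNG); the other
bad `n`: `g'(a0 + n, y n)` is invertible modulo `p` (`A g + B g' = r`), the pairs
`(n mod p, y n mod p)` are at most `p (deg g) ^ [K : ℚ]` many (RTS for `g (a0 + n mod p, ·)`), each class has at
most `degBoundK g N + N` elements (CLS)). -/
def CntStmt : Prop :=
  ∀ (K : Type) [Field K] [NumberField K] (g : (𝓞 K)[X][X]), AdmK K g →
    ∃ e C' R0 : ℕ, 1 ≤ e ∧ ∀ R ≥ R0, ∀ a0 : 𝓞 K, house (a0 : K) ≤ 2 * (R : ℝ) ^ e →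
      Nat.card {n : ℕ // n < R ^ e ∧ ∃ y : 𝓞 K, evalEval (a0 + n) y g = 0} ≤ C' * R ^ (e - 1)

/-! ### Densities -/

/-- BOX: upper bound for the number of elements of bounded house. Proof:
`NumberField.house.basis_repr_norm_le_const_mul_house` (coordinates in the integral basis). -/
def BoxStmt : Prop :=
  ∀ (K : Type) [Field K] [NumberField K], ∃ C : ℕ, ∀ X : ℕ,
    {a : 𝓞 K | house (a : K) ≤ X}.Finite ∧
      Nat.card {a : 𝓞 K // house (a : K) ≤ X} ≤ C * (X + 1) ^ Module.finrank ℚ K

/-- BXL: lower bound for the number of elements of bounded house. Proof: the combinations of the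
integral basis with coefficients `0, .., X / M - 1`, `M` large. -/
def BxlStmt : Prop :=
  ∀ (K : Type) [Field K] [NumberField K], ∃ c : ℝ, 0 < c ∧ ∀ X : ℕ, 1 ≤ X →
    c * (X : ℝ) ^ Module.finrank ℚ K ≤ Nat.card {a : 𝓞 K // house (a : K) ≤ X}

/-- DZR: density zero is also density zero relative to all elements of bounded house (BXL). -/
def DzrStmt : Prop :=
  ∀ (K : Type) [Field K] [NumberField K] (S : Set (𝓞 K)), DZ K S ↔
    Filter.Tendsto (fun X : ℕ => (Nat.card {a : 𝓞 K // a ∈ S ∧ house (a : K) ≤ X} : ℝ) /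
      (Nat.card {a : 𝓞 K // house (a : K) ≤ X} : ℝ)) Filter.atTop (nhds 0)

/-- DZC: calculus of density zero. Proofs as in `Helper34_MTL.Hid` (finiteness by BOX). -/
def DzcStmt : Prop :=
  ∀ (K : Type) [Field K] [NumberField K],
    (∀ S T : Set (𝓞 K), S ⊆ T → DZ K T → DZ K S) ∧
    (∀ (ι : Type) [Finite ι] (S : ι → Set (𝓞 K)), (∀ i, DZ K (S i)) → DZ K (⋃ i, S i)) ∧
    (∀ S : Set (𝓞 K), S.Finite → DZ K S) ∧
    ∀ S : Set (𝓞 K), (∀ ε : ℝ, 0 < ε → ∃ X0 : ℕ, ∀ X : ℕ, X0 ≤ X →
      (Nat.card {a : 𝓞 K // a ∈ S ∧ house (a : K) ≤ X} : ℝ) ≤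
        ε * (X : ℝ) ^ Module.finrank ℚ K) → DZ K S

/-- AVG: density zero from segments in the direction of one. Proof: count the pairs `(a, j)` with `a ∈ S`,
`house a ≤ X` and `j < X`; the map `(a, j) ↦ (a - j, j)` is injective with `house (a - j) ≤ 2 X`, so
`X #(S ∩ B_X) ≤ #B_(2X) (ε X) ≤ C (2 X + 1) ^ m ε X` (BOX). -/
def AvgStmt : Prop :=
  ∀ (K : Type) [Field K] [NumberField K] (S : Set (𝓞 K)),
    (∀ ε : ℝ, 0 < ε → ∃ X0 : ℕ, ∀ X : ℕ, X0 ≤ X → ∀ a0 : 𝓞 K, house (a0 : K) ≤ 2 * X →
      (Nat.card {j : ℕ // j < X ∧ a0 + j ∈ S} : ℝ) ≤ ε * X) → DZ K S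

/-- AVW: density zero from windows: if for every `M` and every `w` outside of a set of density zero at
most `C` of the elements `w, w - 1, .., w - (M - 1)` are in `S`, then `S` has density zero. Proof: count the
pairs `(w, κ)` with `house w ≤ X`, `κ < M`, `w - κ ∈ S`: at least `M #(S ∩ B_(X - M))` and at most
`C #B_X + M #(Z M ∩ B_X)`. -/
def AvwStmt : Prop :=
  ∀ (K : Type) [Field K] [NumberField K] (S : Set (𝓞 K)) (Z : ℕ → Set (𝓞 K)) (C : ℕ),
    (∀ M, DZ K (Z M)) →
    (∀ M : ℕ, ∀ w : 𝓞 K, w ∉ Z M → Nat.card {κ : ℕ // κ < M ∧ w - κ ∈ S} ≤ C) → DZ K S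

/-- SML: for one hundred percent of the elements a given conjugate is almost as large as the
house. Proof: AVG, since `‖σ a0 + j‖ < (3 X) ^ ε` for at most `2 (3 X) ^ ε + 1` integers `j`. -/
def SmlStmt : Prop :=
  ∀ (K : Type) [Field K] [NumberField K] (σ : K →+* ℂ) (ε : ℝ), 0 < ε → ε < 1 →
    DZ K {w : 𝓞 K | ‖σ (w : K)‖ < house (w : K) ^ ε}

/-- HID: an admissible polynomial has a root in `𝓞 K` only for a set of parameters of density zero.
Proof: CNT and the count of AVG with `j < R ^ e`, where `X ≤ R ^ e` and `(R - 1) ^ e ≤ X`. -/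
def HidStmt : Prop :=
  ∀ (K : Type) [Field K] [NumberField K] (g : (𝓞 K)[X][X]), AdmK K g →
    DZ K {a : 𝓞 K | ∃ y : 𝓞 K, evalEval a y g = 0}

/-! ### Galois theory -/

/-- ALG: an element algebraic over the fraction field `k` of a domain `A`, not in `k`, has a multiple
which is a root of an admissible polynomial. Proof as `Common_HIT.admissible_minpoly`: multiply the
minimal polynomial by a common denominator `s` of the coefficients and use `s y`. -/
def AlgStmt : Prop :=
  ∀ (A k Ω : Type) [CommRing A] [IsDomain A] [Field k] [Field Ω] [CharZero k] [Algebra A k]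
    [IsFractionRing A k] [Algebra k Ω] [Algebra A Ω] [IsScalarTower A k Ω] (y : Ω),
    IsAlgebraic k y → y ∉ Set.range (algebraMap k Ω) →
    ∃ (s : A) (g : A[X]), s ≠ 0 ∧ g.Monic ∧ g.eval₂ (algebraMap A Ω) (algebraMap A Ω s * y) = 0 ∧
      (∀ u : k, (g.map (algebraMap A k)).eval u ≠ 0) ∧
      ∃ (P Q : A[X]) (r : A), r ≠ 0 ∧ P * g + Q * derivative g = C r

/-- FRK: the field `φ(K)(t)` consists of the quotients of the polynomials over the ring of
integers. Proof: `φ(K)` is algebraic over `ℚ` and `t` is transcendental, so `zph φ` is injective; the set of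
the quotients is a field which contains `ℚ(t)` and `φ(K)`, and is contained in the field generated. -/
def FrkStmt : Prop :=
  ∀ (K : Type) [Field K] [NumberField K] (φ : K →+* Om), Function.Injective (zph φ) ∧
    ∀ x : Om, x ∈ IntermediateField.adjoin (RatFunc ℚ) (Set.range φ) ↔
      ∃ F G : (𝓞 K)[X], G ≠ 0 ∧ x = zph φ F / zph φ G

/-- EXO: a closed subgroup of `GT` which does not contain the Galois group of `φ(K)(t)` fixes an element
with an admissible equation, up to the Galois group of `φ(K)(t)`. Proof: `Gph φ` is the group fixing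
`E = IntermediateField.adjoin (RatFunc ℚ) (Set.range φ)`; the fixed field of the closed group
`H ⊓ Gph φ` is not `E` (`InfiniteGalois.fixingSubgroup_fixedField`), take `y` in it, not in `E`, and apply
ALG with `A = (𝓞 K)[X]`, `k = E` (FRK). -/
def ExoStmt : Prop :=
  ∀ (K : Type) [Field K] [NumberField K] (φ : K →+* Om) (H : Subgroup GT),
    IsClosed (H : Set GT) → ¬ Gph φ ≤ H →
    ∃ (x : Om) (g : (𝓞 K)[X][X]), AdmK K g ∧ g.eval₂ (zph φ) x = 0 ∧
      ∀ σ ∈ H, σ ∈ Gph φ → σ x = x

/-- DEK: the decomposition group at an algebraic point is mapped onto the stabiliser. Proof: as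
`Helper83_MTL.Dec` (`π f = f(a)` for `f` in `ℚ[t]` and `τ` fixes `f(a)`; the surjectivity of `π` is
proved there for `a = n`, and the same proof works). -/
def DekStmt : Prop :=
  ∀ (a : QB) (π : BB →+* QB), π (algebraMap ℚ[X] BB X) = a → Function.Surjective π ∧
    ∀ τ : GQ, τ a = a → ∃ σ : GT, ∀ b : BB, π (σ • b) = τ (π b)

/-- CST: the embedding of `K` into the constants of `Om` which corresponds to `ψ`. Proof: the elements of
`Om` algebraic over `ℚ` form a field inside `BB` on which `π` is injective, and onto `QB` (as in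
`Helper83_MTL.Dec`, `pi_surj`, or: the minimal polynomial of `ψ θ`, `θ` a primitive element, splits in
`Om`). -/
def CstStmt : Prop :=
  ∀ (K : Type) [Field K] [NumberField K] (ψ : K →+* QB) (π : BB →+* QB),
    ∃ φ : K →+* Om, ∀ c : K, ∃ b : BB, (b : Om) = φ c ∧ π b = ψ c

/-- RES: an element which is fixed by the decomposition group over `φ(K)(t)` and which satisfies a
monic equation over `𝓞 K [t]` has a value in `ψ(𝓞 K)`. Proof: for `τ` fixing `ψ(K)` take `σ` by DEK
(`a` is in `ψ(K)`); `σ` fixes `φ(K)` since `π` is injective on the constants; so `τ (π x) = π x`, hence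
`π x` is in `ψ(K)` (Galois theory of the algebraic closure of `ℚ`) and integral, `π x = ψ y`, and
`π (g(t, x)) = ψ (g(a, y))`. -/
def ResStmt : Prop :=
  ∀ (K : Type) [Field K] [NumberField K] (ψ : K →+* QB) (a : 𝓞 K) (π : BB →+* QB),
    π (algebraMap ℚ[X] BB X) = ψ a → ∀ φ : K →+* Om,
    (∀ c : K, ∃ b : BB, (b : Om) = φ c ∧ π b = ψ c) →
    ∀ (x : Om) (g : (𝓞 K)[X][X]), g.Monic → g.eval₂ (zph φ) x = 0 →
      (∀ σ ∈ decG π, σ ∈ Gph φ → σ x = x) → ∃ y : 𝓞 K, evalEval a y g = 0

/-- HIG: Hilbert's irreducibility theorem for finite quotients of the Galois group. Proof as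
`Helper34_MTL.Hig`: finitely many `φ : K →+* Om` and subgroups `D'` of the finite group `GT / N`; for the
pairs with `¬ Gph φ ≤ D'.comap` take `x`, `g` by EXO and the exceptional set of `g` by HID. For `a`
outside take `φ` by CST and `D'` the image of `decG π ⊓ Gph φ`; if `¬ Gph φ ≤ D'.comap` then RES gives a
root. Finiteness of `K →+* Om`: `Finite (K →ₐ[ℚ] Om)`. -/
def HigStmt : Prop :=
  ∀ (K : Type) [Field K] [NumberField K] (N : Subgroup GT), N.Normal → IsOpen (N : Set GT) →
    ∃ S : Set (𝓞 K), DZ K S ∧ ∀ a ∉ S, ∀ (ψ : K →+* QB) (π : BB →+* QB),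
      π (algebraMap ℚ[X] BB X) = ψ a → ∃ φ : K →+* Om,
        ∀ γ ∈ Gph φ, ∃ σ ∈ decG π, σ ∈ Gph φ ∧ σ⁻¹ * γ ∈ N

/-- GPF: the group of `φ(K)(t)` is closed and has finite index. Proof: it is the fixing subgroup of a
finite extension (`IntermediateField.fixingSubgroup_isOpen`). -/
def GpfStmt : Prop :=
  ∀ (K : Type) [Field K] [NumberField K] (φ : K →+* Om),
    IsOpen (Gph φ : Set GT) ∧ IsClosed (Gph φ : Set GT) ∧ (Gph φ).FiniteIndex

/-- SER: for one hundred percent of the elements of `𝓞 K` the specialised representation has an image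
between the images of a subgroup of finite index and of the whole group. Proof as
`Helper34_MTL.Ser`: FRA (`Helper33_MTL.Fra`) for the compact groups `ρ (Gph φ)`, intersection `U` of the
finitely many neighbourhoods, `N` open normal with `ρ N ⊆ U`, HIG; the closed group
`ρ (decG π ⊓ Gph φ)` is `ρ (Gph φ)`; its elements are in the image of `ρa`. The other inclusion by DEK. -/
def SerStmt : Prop :=
  ∀ (K : Type) [Field K] [NumberField K] (d : Type) [Fintype d] [DecidableEq d] (ℓ : ℕ)
    [Fact ℓ.Prime] (ρ : GT →* GL d ℚ_[ℓ]), Continuous ρ → ∃ S : Set (𝓞 K), DZ K S ∧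
      ∀ a ∉ S, ∀ (ψ : K →+* QB) (ρa : Stab (ψ a) →* GL d ℚ_[ℓ]), SpecializesAt ρ (ψ a) ρa →
        Set.range ρa ⊆ Set.range ρ ∧
        ∃ Γ : Subgroup GT, Γ.FiniteIndex ∧ ρ '' (Γ : Set GT) ⊆ Set.range ρa

/-- MON: the monodromy group depends only on the image up to finite index. Proof: for `Γ'` of finite
index in `G'` the group `ρ⁻¹ (ρ' Γ') ∩ Γ` has finite index in `G`, and for `Γ₁` of finite index in `G` the
group `ρ'⁻¹ (ρ Γ₁)` has finite index in `G'`; `zclosure` is monotone. -/
def MonStmt : Prop :=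
  ∀ (n : Type) [Fintype n] [DecidableEq n] (F : Type) [Field F] (G G' : Type) [Group G] [Group G']
    (ρ : G →* GL n F) (ρ' : G' →* GL n F), Set.range ρ' ⊆ Set.range ρ →
    (∃ Γ : Subgroup G, Γ.FiniteIndex ∧ ρ '' (Γ : Set G) ⊆ Set.range ρ') →
    ∀ (K : Type u) [Field K] [Algebra F K], monodromy ρ' K = monodromy ρ K

/-- FIN: for one hundred percent of the elements of `𝓞 K` the specialised representation has the
same connected algebraic monodromy group. -/
def FinStmt : Prop :=
  ∀ (K : Type) [Field K] [NumberField K] (d : Type) [Fintype d] [DecidableEq d] (ℓ : ℕ)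
    [Fact ℓ.Prime] (ρ : GT →* GL d ℚ_[ℓ]), Continuous ρ → ∃ S : Set (𝓞 K), DZ K S ∧
      ∀ a ∉ S, ∀ (ψ : K →+* QB) (ρa : Stab (ψ a) →* GL d ℚ_[ℓ]), SpecializesAt ρ (ψ a) ρa →
        ∀ (F : Type u) [Field F] [Algebra ℚ_[ℓ] F], monodromy ρa F = monodromy ρ F

end Pool.Agent.HIK
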